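import Pool.Agent.Q216.Mealy.HardPoly
import Pool.Agent.Q216.Mealy.Mem2
import Pool.Agent.H622R2.CoNP

set_option autoImplicit false

/-!
# Recognising reset Mealy automata is `PSPACE`-complete

The definitions of Mealy automata and of the decision problem (`Mealy`, `Mealy.run`, `Mealy.trans`,
`Mealy.Syn`, `IsReset`, `Mealy.code`) are in `Pool.Agent.Q216.Mealy.Defs`, those of polynomial space
and completeness in `Pool.Agent.H623R2.PS.Defs`.
-/

namespace Pool.Agent.Results.MP_5adc07_lc.ResetPSPACEComplete

open Pool.Agent.NPC Pool.Agent.H623R2.PS Pool.Agent.Q216.Mealy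

/-- RESET is `PSPACE`-complete. Hence it is in `NP` iff `PSPACE` is contained in `NP`, and it is in
`P` iff `PSPACE` is contained in `P`. -/
theorem result : PSPACEComplete (lang IsReset) ∧
    (InNP (lang IsReset) ↔ ∀ L : Set (List Bool), InPSPACE L → InNP L) ∧
    (InP (lang IsReset) ↔ ∀ L : Set (List Bool), InPSPACE L → InP L) :=
  ⟨⟨member, hard⟩, ⟨fun h L hL => Pool.Agent.H622R2.InNP.of_reduces (hard L hL) h, fun h => h _ member⟩,
    ⟨fun h L hL => InP.of_reduces (hard L hL) h, fun h => h _ member⟩⟩

end Pool.Agent.Results.MP_5adc07_lc.ResetPSPACEComplete
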